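import Mathlib
import Pool.Agent.KS6_31.IFJ.IF2

/-!
# The divisibility theorem for joins with complete equipartite graphs, and their blow-ups
-/

set_option autoImplicit false

namespace Pool.Agent.Results.MP_3a76f9_co.JoinsAndBlowUps

open SimpleGraph

/-- The edges of `G` can be distributed over `t` pairwise isomorphic spanning subgraphs. -/
def HasFactorisation {V : Type} (G : SimpleGraph V) (t : ℕ) : Prop :=
  ∃ F : Fin t → SimpleGraph V, (∀ i v w, (F i).Adj v w → G.Adj v w) ∧
    (∀ v w, G.Adj v w → ∃! i, (F i).Adj v w) ∧ ∀ i j, Nonempty (F i ≃g F j)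

/-- The join `A ∨ B`: disjoint copies of `A` and `B` and all edges between them. -/
def Join {O Z : Type} (A : SimpleGraph O) (B : SimpleGraph Z) : SimpleGraph (O ⊕ Z) where
  Adj
    | Sum.inl a, Sum.inl b => A.Adj a b
    | Sum.inr x, Sum.inr y => B.Adj x y
    | Sum.inl _, Sum.inr _ => True
    | Sum.inr _, Sum.inl _ => True
  symm := ⟨by
    rintro (a | x) (b | y) h
    · exact SimpleGraph.Adj.symm (G := A) h
    · trivial
    · trivial
    · exact SimpleGraph.Adj.symm (G := B) h⟩
  loopless := ⟨by
    rintro (a | x) h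
    · exact A.loopless.irrefl a h
    · exact B.loopless.irrefl x h⟩

/-- `A ∨ K_{r×n}`: the join of `A` with the complete equipartite graph with `r` parts of size
`n`. -/
def JoinEquipartite {O : Type} (A : SimpleGraph O) (r n : ℕ) : SimpleGraph (O ⊕ (Fin r × Fin n)) :=
  Join A (completeEquipartiteGraph r n)

/-- The blow-up: every vertex is replaced by `ν` independent vertices. -/
def BlowUp {V : Type} (G : SimpleGraph V) (ν : ℕ) : SimpleGraph (V × Fin ν) :=
  G.comap Prod.fst

/-- The number of edges. -/
noncomputable def edges {V : Type} (G : SimpleGraph V) : ℕ := G.edgeSet.ncard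

/-- The parameters which are excluded in (2). -/
def Exceptional (n τ m : ℕ) : Prop := Odd n ∧ Odd m ∧ (τ = 2 ∨ (n = 1 ∧ τ = 4))

/-- `B` is a circulant graph on `ℤ_T` in which `x` and `x + T / 2` are not adjacent, unless `t`
divides `T / 2`. -/
def GoodCirculant (t : ℕ) {T : ℕ} (B : SimpleGraph (ZMod T)) : Prop :=
  (∀ a x y, B.Adj (x + a) (y + a) ↔ B.Adj x y) ∧
    ∀ d : ℕ, 2 * d = T → ¬ t ∣ d → ¬ B.Adj 0 (d : ZMod T)

theorem join_eq {O Z : Type} (A : SimpleGraph O) (B : SimpleGraph Z) :
    Join A B = Pool.Agent.TH25.IF.jn A B fun _ => True := by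
  ext v w
  rcases v with a | x <;> rcases w with b | y <;> exact Iff.rfl

/-- (1) The complete equipartite graph with `r` parts of size `n` has an isomorphic factorisation
into `t` factors if and only if `t` divides its number of edges (Q1).
(2) Let `n` divide `t = n τ`, and let `A` be ANY finite graph which is edge-colourable with `t`
colours. The join `A ∨ K_{mτ×n}` has an isomorphic factorisation into `t` factors if and only if `t`
divides its number of edges; in this case all its blow-ups have one, too. (Exceptional parameters: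
`n`, `m` odd and `τ = 2` or `n = 1`, `τ = 4`.)
(3) The number of edges in (2).
(4) If `A` has an isomorphic factorisation into `t` factors, then so has its join with every
circulant graph whose order is divisible by `t` (without diameters, unless `t ∣ T / 2`).
(5) The hypothesis of (2) holds if all degrees of `A` are smaller than `t` (Vizing). -/
theorem result :
    (∀ r n t : ℕ, 1 ≤ n → 1 ≤ t →
      (HasFactorisation (completeEquipartiteGraph r n) t ↔ t ∣ n ^ 2 * r.choose 2)) ∧
    (∀ (O : Type) [Fintype O] (A : SimpleGraph O) (n τ m : ℕ), 1 ≤ n → 1 ≤ τ →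
      A.lineGraph.Colorable (n * τ) → ¬ Exceptional n τ m →
      (HasFactorisation (JoinEquipartite A (m * τ) n) (n * τ) ↔
        n * τ ∣ edges (JoinEquipartite A (m * τ) n)) ∧
      (n * τ ∣ edges (JoinEquipartite A (m * τ) n) →
        ∀ ν, HasFactorisation (BlowUp (JoinEquipartite A (m * τ) n) ν) (n * τ))) ∧
    (∀ (O : Type) [Fintype O] (A : SimpleGraph O) (r n : ℕ), edges (JoinEquipartite A r n) =
      edges A + Fintype.card O * (r * n) + n ^ 2 * r.choose 2) ∧
    (∀ (O : Type) (A : SimpleGraph O) (t T : ℕ) (B : SimpleGraph (ZMod T)), 1 ≤ t → 1 ≤ T →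
      t ∣ T → GoodCirculant t B → HasFactorisation A t → HasFactorisation (Join A B) t) ∧
    (∀ (O : Type) [Fintype O] (A : SimpleGraph O) (t : ℕ),
      (∀ v, (A.neighborSet v).ncard < t) → A.lineGraph.Colorable t) := by
  have hedges : ∀ (O : Type) [Fintype O] (A : SimpleGraph O) (r n : ℕ),
      edges (JoinEquipartite A r n) =
        edges A + Fintype.card O * (r * n) + n ^ 2 * r.choose 2 := by
    intro O _ A r n
    unfold edges JoinEquipartite
    rw [join_eq]
    exact Pool.Agent.KS6_31.IFJ.edges_jn A r n
  refine ⟨?_, ?_, hedges, ?_, ?_⟩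
  · intro r n t hn ht
    exact (Pool.Agent.TH25.IF.main3 r n t hn ht).symm
  · intro O _ A n τ m hn hτ hA hex
    have ht : 1 ≤ n * τ := Nat.mul_pos hn hτ
    have key : n * τ ∣ edges (JoinEquipartite A (m * τ) n) →
        Pool.Agent.TH25.IF.Div (JoinEquipartite A (m * τ) n) (Fin (n * τ)) := by
      intro h
      rw [hedges] at h
      unfold JoinEquipartite
      rw [join_eq]
      exact (Pool.Agent.KS6_31.IFJ.finDiv ht).2 (Pool.Agent.KS6_31.IFJ.main_join hn hτ hA hex h)
    refine ⟨⟨fun h => Pool.Agent.KS6_31.IFJ.div_dvd' h, key⟩, fun h ν => ?_⟩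
    exact Pool.Agent.TH25.IF.Div.blow (key h)
  · intro O A t T B ht hT hd hB hA
    rw [join_eq]
    exact Pool.Agent.KS6_31.IFJ.circ ht hT hd hB.1 hB.2 hA
  · intro O _ A t h
    exact Pool.Agent.KS6_31.IFJ.ec_of_deg h

end Pool.Agent.Results.MP_3a76f9_co.JoinsAndBlowUps
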