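import Mathlib
import Pool.Agent.KS6_69.IF.Parts

/-!
# Isomorphic factorisations of complete multipartite graphs with unequal parts

The complete multipartite graph whose parts are the fibres of a map `p : V → P` is
`(⊤ : SimpleGraph P).comap p`: two vertices are adjacent if and only if they lie in different parts.
-/

set_option autoImplicit false

namespace Pool.Agent.Results.MP_3a76f9_co.MultipartiteUnequalParts

open SimpleGraph

/-- The edges of `G` can be distributed over `t` pairwise isomorphic spanning subgraphs. -/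
def HasIsoFactorisation {V : Type} (G : SimpleGraph V) (t : ℕ) : Prop :=
  ∃ F : Fin t → SimpleGraph V,
    (∀ i v w, (F i).Adj v w → G.Adj v w) ∧
    (∀ v w, G.Adj v w → ∃! i, (F i).Adj v w) ∧
    ∀ i j, Nonempty (F i ≃g F j)

/-- The complete multipartite graph with the parts `{v | p v = x}`. -/
def multipartite {V P : Type} (p : V → P) : SimpleGraph V := (⊤ : SimpleGraph P).comap p

/-- The size of the part of `v`. -/
noncomputable def partSize {V P : Type} (p : V → P) (v : V) : ℕ := Nat.card {w // p w = p v}

theorem iff_div {V : Type} (G : SimpleGraph V) (t : ℕ) [NeZero t] :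
    HasIsoFactorisation G t ↔ Pool.Agent.KS6_69.IF.Div G (ZMod t) :=
  ⟨fun h => Pool.Agent.KS6_69.IF.Div.of_equiv (ZMod.finEquiv t).toEquiv h,
    fun h => Pool.Agent.KS6_69.IF.Div.of_equiv (ZMod.finEquiv t).symm.toEquiv h⟩

theorem necessary {V : Type} [Fintype V] (G : SimpleGraph V) (t : ℕ)
    (h : HasIsoFactorisation G t) : t ∣ G.edgeSet.ncard := by
  classical
  have h1 := Pool.Agent.KS6_69.IF.div_dvd (G := G) (C := Fin t) h
  rw [Fintype.card_fin, ← Pool.Agent.KS6_69.IF.ec_eq] at h1
  exact h1

/-- Reduction to the parts whose size is not divisible by `t`. -/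
theorem reduce {V P : Type} [Fintype V] (p : V → P) (t : ℕ) [NeZero t] :
    (t ∣ (multipartite p).edgeSet.ncard ↔
      t ∣ ((multipartite p).induce {v | ¬ t ∣ partSize p v}).edgeSet.ncard) ∧
    (Pool.Agent.KS6_69.IF.Div ((multipartite p).induce {v | ¬ t ∣ partSize p v}) (ZMod t) →
      Pool.Agent.KS6_69.IF.Div (multipartite p) (ZMod t)) := by
  classical
  have h := Pool.Agent.KS6_69.IF.add_parts p t
    ((Finset.univ.image p).filter fun x => t ∣ Nat.card {v // p v = x})
    (fun x hx => (Finset.mem_filter.1 hx).2)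
  have hS : {v | p v ∉ (Finset.univ.image p).filter fun x => t ∣ Nat.card {v // p v = x}} =
      {v | ¬ t ∣ partSize p v} := by
    ext v
    change ¬ (p v ∈ (Finset.univ.image p).filter fun x => t ∣ Nat.card {v // p v = x}) ↔
      ¬ (t ∣ partSize p v)
    rw [not_iff_not, Finset.mem_filter]
    exact ⟨fun h => h.2, fun h => ⟨Finset.mem_image_of_mem p (Finset.mem_univ v), h⟩⟩
  rw [hS] at h
  exact h

theorem part_size_induce {V P : Type} (p : V → P) (t : ℕ)
    (v : ({v | ¬ t ∣ partSize p v} : Set V)) :
    Nat.card {w : ({v | ¬ t ∣ partSize p v} : Set V) // p w.1 = p v.1} = partSize p v.1 := by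
  refine Nat.card_congr ⟨fun w => ⟨w.1.1, w.2⟩, fun w => ⟨⟨w.1, ?_⟩, w.2⟩, ?_, ?_⟩
  · change ¬ t ∣ partSize p w.1
    have : partSize p w.1 = partSize p v.1 := by
      unfold partSize
      rw [w.2]
    rw [this]
    exact v.2
  · intro w; rfl
  · intro w; rfl

/-- **Complete multipartite graphs.** Let `t ≥ 1` and let `K` be a complete multipartite graph.
(1) If all parts of `K` whose size is not divisible by `t` have the same size `n`, then `K` has an
isomorphic factorisation into `t` factors if and only if `t` divides its number of edges.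
(2) The same holds if the parts whose size is not divisible by `t` have together at most `t`
vertices.
(3) If `X` is an independent set of a finite graph `G`, `t` divides `|X|`, all vertices of `X` are
adjacent to all vertices outside `X`, and `G - X` has an isomorphic factorisation into `t` factors,
then `G` has one.
(4) (Q1) For the complete equipartite graph with `r` parts of size `n` the divisibility condition
`t ∣ n ^ 2 * r.choose 2` is necessary and sufficient. -/
theorem result :
    (∀ (V P : Type) [Fintype V] (p : V → P) (n t : ℕ), 1 ≤ t →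
      (∀ v, t ∣ partSize p v ∨ partSize p v = n) →
      (HasIsoFactorisation (multipartite p) t ↔ t ∣ (multipartite p).edgeSet.ncard)) ∧
    (∀ (V P : Type) [Fintype V] (p : V → P) (t : ℕ), 1 ≤ t →
      {v | ¬ t ∣ partSize p v}.ncard ≤ t →
      (HasIsoFactorisation (multipartite p) t ↔ t ∣ (multipartite p).edgeSet.ncard)) ∧
    (∀ (V : Type) [Fintype V] (G : SimpleGraph V) (X : Set V) (t : ℕ), 1 ≤ t → t ∣ X.ncard →
      (∀ v ∈ X, ∀ w, G.Adj v w ↔ w ∉ X) → HasIsoFactorisation (G.induce Xᶜ) t →
      HasIsoFactorisation G t) ∧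
    (∀ r n t : ℕ, 1 ≤ r → 1 ≤ n → 1 ≤ t →
      (HasIsoFactorisation (multipartite (Prod.fst : Fin r × Fin n → Fin r)) t ↔
        t ∣ n ^ 2 * r.choose 2)) := by
  refine ⟨?_, ?_, ?_, ?_⟩
  · intro V P _ p n t ht hp
    have : NeZero t := ⟨by omega⟩
    refine ⟨necessary _ t, fun h => ?_⟩
    rw [iff_div]
    obtain ⟨h1, h2⟩ := reduce p t
    refine h2 (Pool.Agent.KS6_69.IF.equal_parts
      (fun v : ({v | ¬ t ∣ partSize p v} : Set V) => p v.1) n t ?_ (h1.1 h))
    intro v
    rw [part_size_induce]
    exact (hp v.1).resolve_left v.2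
  · intro V P _ p t ht hp
    classical
    have : NeZero t := ⟨by omega⟩
    refine ⟨necessary _ t, fun h => ?_⟩
    rw [iff_div]
    obtain ⟨h1, h2⟩ := reduce p t
    refine h2 (Pool.Agent.KS6_69.IF.Div.many ?_ ?_)
    · rw [← Nat.card_eq_fintype_card, Nat.card_coe_set_eq]
      exact hp
    · have h3 := h1.1 h
      have h4 := Pool.Agent.KS6_69.IF.ec_eq ((multipartite p).induce {v | ¬ t ∣ partSize p v})
      unfold Pool.Agent.KS6_69.IF.ec at h4
      rw [h4] at h3
      rw [sum_degrees_eq_twice_card_edges]
      exact Nat.mul_dvd_mul_left 2 h3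
  · intro V _ G X t ht hX hadj h
    have : NeZero t := ⟨by omega⟩
    rw [iff_div] at h ⊢
    exact (Pool.Agent.KS6_69.IF.add_indep G X t hX hadj).2 h
  · intro r n t _ hn ht
    exact (Pool.Agent.KS6_69.IF.main3 r n t hn ht).symm

end Pool.Agent.Results.MP_3a76f9_co.MultipartiteUnequalParts
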